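import Pool.Agent.H865R3.Epi3

set_option autoImplicit false

namespace Pool.Agent.Results.MP_862e0f_al.BanachEpiNotDense

open Pool.Agent.H865R3

universe u v a b c d

/-- The homomorphism `f : G → H` between Lie groups (modelled on `E` and `F`) is smooth, and it is
an epimorphism in the category of locally convex Lie groups: for every Lie group `K` modelled on
any Hausdorff locally convex real space `M` (in arbitrary universes `v` and `u`), two smooth
homomorphisms `H → K` that agree on `f(G)` are equal. -/
def IsLieEpi {E : Type a} [AddCommGroup E] [Module ℝ E] [TopologicalSpace E]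
    {F : Type b} [AddCommGroup F] [Module ℝ F] [TopologicalSpace F]
    {G : Type c} [Group G] [TopologicalSpace G] {H : Type d} [Group H] [TopologicalSpace H]
    (LG : LieStructure E G) (LH : LieStructure F H) (f : G →* H) : Prop :=
  SmoothMap LG LH f ∧
  ∀ (M : Type u) [AddCommGroup M] [Module ℝ M] [TopologicalSpace M] [IsTopologicalAddGroup M]
    [ContinuousSMul ℝ M] [LocallyConvexSpace ℝ M] [T2Space M]
    (K : Type v) [Group K] [TopologicalSpace K] [IsTopologicalGroup K] [T2Space K]
    (LK : LieStructure M K) (φ₁ φ₂ : H →* K),
    SmoothMap LH LK φ₁ → SmoothMap LH LK φ₂ → (∀ g : G, φ₁ (f g) = φ₂ (f g)) → φ₁ = φ₂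

/-- There are a Banach space `F` (seen as an additive Banach-Lie group), a countable discrete
group `G` (a zero-dimensional Lie group) and a smooth homomorphism `f : G → F` that is an
epimorphism in the category of all locally convex Lie groups but whose image is not dense. -/
theorem result : ∃ (F : Type) (_ : NormedAddCommGroup F) (_ : NormedSpace ℝ F)
    (_ : CompleteSpace F) (G : Type) (_ : CommGroup G) (_ : TopologicalSpace G)
    (_ : DiscreteTopology G) (_ : Countable G) (f : G →* Multiplicative F),
    IsLieEpi.{u, v} (discLie.{0, 0} G) (vecLie F) f ∧ ¬ DenseRange f := by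
  refine ⟨Model, inferInstance, inferInstance, inferInstance, Dgrp, inferInstance, inferInstance,
    inferInstance, inferInstance, fHom, ⟨?_, ?_⟩, not_dense⟩
  · refine ⟨continuous_of_discreteTopology, ?_⟩
    intro e _ e' _ k
    exact subsingleton_isCk _ k _
  · intro M _ _ _ _ _ _ _ K _ _ _ _ LK φ₁ φ₂ h₁ h₂ hag
    refine agree LK φ₁ φ₂ h₁ h₂ (Set.range fAdd) (Set.range indH) dense_span ?_ ?_
    · rintro x ⟨p, rfl⟩
      exact subdivide p
    · rintro y ⟨g, rfl⟩
      exact hag (Multiplicative.ofAdd g)

end Pool.Agent.Results.MP_862e0f_al.BanachEpiNotDense
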