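import Pool.Agent.H865R3.Mu9

set_option autoImplicit false

namespace Pool.Agent.Results.MP_862e0f_al.EpiFixedPoint

open Pool.Agent.H865R3 Pool.Agent.H865R3.Mu Topology

universe u v w a b

/-- Let `H` be a Hausdorff Lie group modelled on a locally convex real space, `G` a topological
group and `f : G → H` a continuous homomorphism which is an epimorphism in Hausdorff topological
groups. Let `H` act continuously on a space `X` and let `x₀` be a point of `X`, with a chart around
it with values in a normed space, such that the action is `C^1` in this chart and in a chart of `H`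
around `1`. If `f(G)` fixes `x₀`, then `H` fixes `x₀`. -/
theorem result {E : Type v} [AddCommGroup E] [Module ℝ E] [TopologicalSpace E]
    [IsTopologicalAddGroup E] [ContinuousSMul ℝ E] [LocallyConvexSpace ℝ E] [T2Space E]
    {H : Type u} [Group H] [TopologicalSpace H] [IsTopologicalGroup H] [T2Space H]
    (LH : LieStructure E H) (c : OpenPartialHomeomorph H E) (_hc : c ∈ LH.charts)
    (hc1 : (1 : H) ∈ c.source)
    {G : Type w} [Group G] [TopologicalSpace G] [IsTopologicalGroup G]
    (f : G →* H) (_hf : Continuous f) (hepi : IsTopEpi f)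
    {B : Type a} [NormedAddCommGroup B] [NormedSpace ℝ B]
    {X : Type b} [TopologicalSpace X] [MulAction H X] [ContinuousSMul H X]
    (e : OpenPartialHomeomorph X B) (x₀ : X) (hx₀ : x₀ ∈ e.source)
    (hC : IsCk B 1 (E × B) (fun z : E × B => e (c.symm z.1 • e.symm z.2))
      {z | z.1 ∈ c.target ∧ z.2 ∈ e.target ∧ c.symm z.1 • e.symm z.2 ∈ e.source})
    (hfix : ∀ g : G, f g • x₀ = x₀) (h : H) : h • x₀ = x₀ := by
  by_contra hne
  obtain ⟨b, hb1, hb2, hb3⟩ := exists_fun_of_action (H := H) hx₀ (locLip_of_C1 hc1 hx₀ hC) hne
  exact hb3 (epi_fun hepi _ (fun g => hfix g) b hb1 hb2 h)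

end Pool.Agent.Results.MP_862e0f_al.EpiFixedPoint
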