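import Pool.Agent.H865R3.Mu9

set_option autoImplicit false

namespace Pool.Agent.Results.MP_862e0f_al.EquiConjImage

open Pool.Agent.H865R3 Pool.Agent.H865R3.Mu Topology

universe u w

/-- Let `f : G → H` be a continuous homomorphism of topological groups, `H` Hausdorff, which is an
epimorphism in Hausdorff topological groups. If the elements near the identity of the closure `S`
of `f(G)` act equicontinuously on `H` by conjugation (for instance if `S` is locally compact, see
`locEquiConj_of_locallyCompact`, or if `H` is a Lie group modelled on a possibly incomplete normed
space, see `locEquiConj_of_normed`), then `f(G)` is dense in `H`. -/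
theorem result {H : Type u} [Group H] [TopologicalSpace H] [IsTopologicalGroup H] [T2Space H]
    {G : Type w} [Group G] [TopologicalSpace G] [IsTopologicalGroup G]
    (f : G →* H) (_hf : Continuous f) (hepi : IsTopEpi f)
    (hE : LocEquiConj f.range.topologicalClosure) : DenseRange f :=
  dense_of_locEquiConj hepi hE

end Pool.Agent.Results.MP_862e0f_al.EquiConjImage
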