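import Pool.Agent.H865R3.Mu9

set_option autoImplicit false

namespace Pool.Agent.Results.MP_862e0f_al.MuConvexEpiDense

open Pool.Agent.H865R3 Pool.Agent.H865R3.Mu Topology

universe u v w z t

/-- Let `H` be a Hausdorff topological group whose topology is induced by a family of homomorphisms
`φ j : H → L j` into Lie groups modelled on Hausdorff locally convex real spaces that are locally
mu-convex (in the weak form of `LocallyMuConvex`); for instance `H` may itself be such a Lie group.
If `G` is a topological group and `f : G → H` a continuous homomorphism which is an epimorphism in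
Hausdorff topological groups, then `f(G)` is dense in `H`. -/
theorem result {H : Type u} [Group H] [TopologicalSpace H] [IsTopologicalGroup H] [T2Space H]
    {J : Type t} {E : J → Type v} [∀ j, AddCommGroup (E j)] [∀ j, Module ℝ (E j)]
    [∀ j, TopologicalSpace (E j)] [∀ j, IsTopologicalAddGroup (E j)]
    [∀ j, ContinuousSMul ℝ (E j)] [∀ j, LocallyConvexSpace ℝ (E j)] [∀ j, T2Space (E j)]
    {L : J → Type z} [∀ j, Group (L j)] [∀ j, TopologicalSpace (L j)]
    [∀ j, IsTopologicalGroup (L j)] (LL : ∀ j, LieStructure (E j) (L j))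
    (hμ : ∀ j, LocallyMuConvex (LL j)) (φ : ∀ j, H →* L j)
    (hφ : IsInducing (fun (h : H) (j : J) => φ j h))
    {G : Type w} [Group G] [TopologicalSpace G] [IsTopologicalGroup G]
    (f : G →* H) (_hf : Continuous f) (hepi : IsTopEpi f) :
    DenseRange f := by
  have hc : ∀ j, Continuous (φ j) := fun j => (continuous_apply j).comp hφ.continuous
  obtain ⟨I, ν, hν, hsep⟩ := exists_list_of_nhds LL φ hc hμ (by
    intro U hU
    rw [hφ.nhds_eq_comap, Filter.mem_comap] at hU
    obtain ⟨V, hV, hVU⟩ := hU
    have h1 : (fun j : J => φ j 1) = fun j => (1 : L j) := by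
      funext j
      exact map_one _
    rw [h1, nhds_pi, Filter.mem_pi] at hV
    obtain ⟨s, hs, t, ht, hst⟩ := hV
    refine ⟨hs.toFinset, t, ht, fun g hg => hVU (hst fun j hj => hg j ?_)⟩
    exact hs.mem_toFinset.2 hj)
  exact dense_of_lengths hepi hν hsep

end Pool.Agent.Results.MP_862e0f_al.MuConvexEpiDense
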